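import Mathlib
import Pool.Agent.Helper519.Propagate

set_option autoImplicit false

namespace Pool.Agent.Results.MP_317a58_an.RenormIndex

open scoped Topology ENNReal
open Filter

noncomputable section

variable {𝕜 : Type*} [RCLike 𝕜] {E : Type*} [NormedAddCommGroup E] [NormedSpace 𝕜 E]

/-- The sequence `e` is a (Schauder) basis of the real or complex normed space `E`: every `x` in
`E` has exactly one expansion `x = ∑ a_i e_i`, converging in norm. -/
def IsSchauderBasis (𝕜 : Type*) [RCLike 𝕜] {E : Type*} [NormedAddCommGroup E] [NormedSpace 𝕜 E]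
    (e : ℕ → E) : Prop :=
  ∀ x : E, ∃! a : ℕ → 𝕜, Tendsto (fun n : ℕ => ∑ i ∈ Finset.range n, a i • e i) atTop (𝓝 x)

/-- The seminorm `N` is a norm on `E` equivalent to the given one. -/
def IsEquivalentNorm (N : Seminorm 𝕜 E) : Prop :=
  ∃ c C : ℝ, 0 < c ∧ 0 < C ∧ ∀ x : E, c * ‖x‖ ≤ N x ∧ N x ≤ C * ‖x‖

/-- The basis constant of the sequence `e` with respect to the norm `N`: the supremum of
`N (s_n x)` over all `n` and all `x` with `N x ≤ 1`, where `s_n x = ∑_{i < n} a_i e_i` for the
expansion `x = ∑ a_i e_i`. -/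
def basisConstant (N : Seminorm 𝕜 E) (e : ℕ → E) : ℝ≥0∞ :=
  ⨆ (x : E) (_ : N x ≤ 1) (a : ℕ → 𝕜)
    (_ : Tendsto (fun n : ℕ => ∑ i ∈ Finset.range n, a i • e i) atTop (𝓝 x)) (n : ℕ),
    ENNReal.ofReal (N (∑ i ∈ Finset.range n, a i • e i))

/-- The index `Γ` of `E` with respect to the norm `N`: the supremum of the reciprocals of the
basis constants of all Schauder bases of `E` (zero when there is no basis). -/
def index (N : Seminorm 𝕜 E) : ℝ≥0∞ :=
  ⨆ (e : ℕ → E) (_ : IsSchauderBasis 𝕜 e), (basisConstant N e)⁻¹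

open Pool.Agent.Helper519.Schauder Pool.Agent.Helper519.Renorm

/-- Every Banach space with a basis admits an equivalent norm whose index lies strictly between
zero and one. -/
theorem result (𝕜 : Type*) [RCLike 𝕜] (E : Type*) [NormedAddCommGroup E] [NormedSpace 𝕜 E]
    [CompleteSpace E] (hE : ∃ e : ℕ → E, IsSchauderBasis 𝕜 e) :
    ∃ N : Seminorm 𝕜 E, IsEquivalentNorm N ∧ 0 < index N ∧ index N < 1 := by
  obtain ⟨e, he⟩ := hE
  have he' : IsBasis 𝕜 e := he
  obtain ⟨B⟩ := exists_BSys he'
  obtain ⟨K, hK, hKx⟩ := exists_bound he'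
  have hM := B.M_pos
  refine ⟨B.N, ⟨1 / 2, 4 * B.M, by norm_num, by positivity, fun x =>
    ⟨B.half_norm_le_N x, B.N_adm.1 x⟩⟩, ?_, ?_⟩
  · -- positivity of the index
    have hfin : basisConstant B.N e ≤ ENNReal.ofReal (4 * B.M * K * 2) := by
      refine iSup_le fun x => iSup_le fun hx => iSup_le fun a => iSup_le fun ha => iSup_le fun n => ?_
      apply ENNReal.ofReal_le_ofReal
      have ha' : a = coef he' x := coef_unique he' x a ha
      have h1 : ∑ i ∈ Finset.range n, a i • e i = S he' n x := by rw [ha', S_apply]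
      rw [h1]
      have h2 := B.N_adm.1 (S he' n x)
      have h3 := hKx n x
      have h4 := B.half_norm_le_N x
      have h5 : ‖x‖ ≤ 2 := by linarith
      calc _ ≤ 4 * B.M * ‖S he' n x‖ := h2
        _ ≤ 4 * B.M * (K * 2) := by
          apply mul_le_mul_of_nonneg_left _ (by positivity)
          exact h3.trans (mul_le_mul_of_nonneg_left h5 hK.le)
        _ = _ := by ring
    have h1 : (basisConstant B.N e)⁻¹ ≤ index B.N :=
      le_iSup₂ (f := fun (e : ℕ → E) (_ : IsSchauderBasis 𝕜 e) => (basisConstant B.N e)⁻¹) e he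
    refine lt_of_lt_of_le ?_ h1
    rw [ENNReal.inv_pos]
    exact ne_top_of_le_ne_top ENNReal.ofReal_ne_top hfin
  · -- the index is at most 1 / (1 + γ)
    have hγ := B.γ_pos
    have hle : index B.N ≤ (ENNReal.ofReal (1 + B.γ))⁻¹ := by
      refine iSup_le fun g => iSup_le fun hg => ?_
      rw [ENNReal.inv_le_inv]
      by_contra hlt
      rw [not_le] at hlt
      have hg' : IsBasis 𝕜 g := hg
      refine B.basis_const hg' fun n x => ?_
      by_cases hx0 : x = 0
      · rw [hx0, map_zero, map_zero, mul_zero]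
      have hNx : 0 < B.N x := by
        have := B.half_norm_le_N x
        have h2 : 0 < ‖x‖ := norm_pos_iff.mpr hx0
        linarith
      set y : E := (((B.N x)⁻¹ : ℝ) : 𝕜) • x with hy
      have hNy : B.N y ≤ 1 := by
        rw [hy, map_smul_eq_mul, RCLike.norm_ofReal, abs_of_pos (by positivity),
          inv_mul_cancel₀ hNx.ne']
      have h3 : ENNReal.ofReal (B.N (S hg' n y)) ≤ basisConstant B.N g := by
        have h4 := le_iSup₂ (f := fun (x : E) (_ : B.N x ≤ 1) => ⨆ (a : ℕ → 𝕜)
          (_ : Tendsto (fun n : ℕ => ∑ i ∈ Finset.range n, a i • g i) atTop (𝓝 x)) (n : ℕ),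
          ENNReal.ofReal (B.N (∑ i ∈ Finset.range n, a i • g i))) y hNy
        refine le_trans ?_ h4
        have h5 := le_iSup₂ (f := fun (a : ℕ → 𝕜)
          (_ : Tendsto (fun n : ℕ => ∑ i ∈ Finset.range n, a i • g i) atTop (𝓝 y)) =>
          ⨆ (n : ℕ), ENNReal.ofReal (B.N (∑ i ∈ Finset.range n, a i • g i))) (coef hg' y)
          (coef_spec hg' y)
        refine le_trans ?_ h5
        exact le_iSup (fun n : ℕ => ENNReal.ofReal (B.N (∑ i ∈ Finset.range n,
          coef hg' y i • g i))) n
      have h6 : B.N (S hg' n y) ≤ 1 + B.γ := by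
        have := (h3.trans hlt.le)
        rwa [ENNReal.ofReal_le_ofReal_iff (by positivity)] at this
      rw [hy, map_smul, map_smul_eq_mul, RCLike.norm_ofReal, abs_of_pos (by positivity),
        inv_mul_le_iff₀ hNx] at h6
      linarith
    refine lt_of_le_of_lt hle ?_
    rw [ENNReal.inv_lt_one]
    rw [← ENNReal.ofReal_one]
    exact ENNReal.ofReal_lt_ofReal_iff_of_nonneg zero_le_one |>.mpr (by linarith)

end

end Pool.Agent.Results.MP_317a58_an.RenormIndex
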